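import Mathlib
import Pool.Agent.Lib.MP_cd48d2_al.Residual

open Pool.Agent.Lib.MP_cd48d2_al

namespace Pool.Agent.Results.MP_cd48d2_al.LeastSufficientSet

/-- Either no set of primes is sufficient for `n`, or there is a finite set `π₀` of primes such that
the sufficient sets are the sets of primes that contain `π₀`; and `π₀` consists of the primes `p`
for which the finite `n`-Engel `p`-groups have unbounded nilpotency class. -/
theorem result.{u} (n : ℕ) :
    (∀ π : Set ℕ, (∀ p ∈ π, p.Prime) → ¬ Sufficient.{u} n π) ∨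
    ∃ π₀ : Finset ℕ, (∀ p ∈ π₀, p.Prime) ∧
      (∀ π : Set ℕ, (∀ p ∈ π, p.Prime) → (Sufficient.{u} n π ↔ (π₀ : Set ℕ) ⊆ π)) ∧
      ∀ p : ℕ, p.Prime → (p ∈ π₀ ↔ ∀ c : ℕ, ∃ (K : Type u) (_ : Group K), Finite K ∧
        IsPGroup p K ∧ IsEngel n K ∧ c < Group.nilpotencyClass K) :=
  dichotomy n

end Pool.Agent.Results.MP_cd48d2_al.LeastSufficientSet
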